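import Pool.Agent.H32.RQ.Targets

/-!
Row TRF of the project RQ: from the random model to the box.
-/

set_option autoImplicit false

open Finset Pool.Agent.H32.RQ

namespace Pool.Agent.H26.RQ

private theorem coef_le {s A : ℕ} {c : Fin 2 → Mon s → ℤ} (hc : c ∈ bx s A) (i : Fin 2)
    (p : Mon s) : |c i p| ≤ (A : ℤ) := by
  have h := Fintype.mem_piFinset.1 (Fintype.mem_piFinset.1 hc i) p
  rw [Finset.mem_Icc] at h
  exact abs_le.2 h

private theorem vec_le {s B : ℕ} {x : Fin s → ℤ} (hx : x ∈ vb s B) (j : Fin s) :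
    |x j| ≤ (B : ℤ) := by
  have h := Fintype.mem_piFinset.1 hx j
  rw [Finset.mem_Icc] at h
  exact abs_le.2 h

private theorem qf_abs_le {s A B : ℕ} (c : Fin 2 → Mon s → ℤ) (x : Fin s → ℤ) (hc : c ∈ bx s A)
    (hx : x ∈ vb s B) (i : Fin 2) : |qf (c i) x| ≤ ((md s * A * B ^ 2 : ℕ) : ℤ) := by
  unfold qf
  refine (Finset.abs_sum_le_sum_abs _ _).trans ?_
  calc ∑ p, |c i p * (x p.1.1 * x p.1.2)| ≤ ∑ _p : Mon s, (A : ℤ) * ((B : ℤ) * B) := by
        apply Finset.sum_le_sum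
        intro p _
        rw [abs_mul, abs_mul]
        exact mul_le_mul (coef_le hc i p) (mul_le_mul (vec_le hx _) (vec_le hx _) (abs_nonneg _)
          (Nat.cast_nonneg _)) (by positivity) (by positivity)
    _ = _ := by
        rw [Finset.sum_const, Finset.card_univ, nsmul_eq_mul]
        push_cast
        ring

private theorem qf_cast {s : ℕ} (Q : ℕ) (c : Fin 2 → Mon s → ℤ) (x : Fin s → ℤ) (i : Fin 2) :
    qf (cm (ZMod Q) c i) (fun j => (x j : ZMod Q)) = ((qf (c i) x : ℤ) : ZMod Q) := by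
  unfold qf cm
  push_cast
  rfl

private theorem cm_inj {s A Q : ℕ} (h : 2 * A < Q) (c c' : Fin 2 → Mon s → ℤ)
    (hc : c ∈ bx s A) (hc' : c' ∈ bx s A) (he : cm (ZMod Q) c = cm (ZMod Q) c') : c = c' := by
  funext i p
  have h1 : ((c i p : ℤ) : ZMod Q) = ((c' i p : ℤ) : ZMod Q) := congrFun (congrFun he i) p
  have h2 : ((c i p - c' i p : ℤ) : ZMod Q) = 0 := by
    push_cast
    rw [h1, sub_self]
  have h3 : (Q : ℤ) ∣ c i p - c' i p := (ZMod.intCast_zmod_eq_zero_iff_dvd _ Q).1 h2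
  have h4 : |c i p - c' i p| < (Q : ℤ) := by
    have a1 := coef_le hc i p
    have a2 := coef_le hc' i p
    have a3 := abs_sub (c i p) (c' i p)
    have a4 : 2 * (A : ℤ) < Q := by exact_mod_cast h
    linarith
  have h5 := Int.eq_zero_of_abs_lt_dvd h3 h4
  linarith

private theorem ww_ge (hFJB : T_FJB) {s A J Q : ℕ} [NeZero Q] (hJ : 1 ≤ J) (hQ : Q = 2 * A * J)
    (c : Fin 2 → Mon s → ℤ) (hc : c ∈ bx s A) :
    ((4 : ℝ) / 10) ^ (2 * md s) ≤ ww Q J (cm (ZMod Q) c) := by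
  have h1 : ∀ (i : Fin 2) (p : Mon s), (4 : ℝ) / 10 ≤ fj Q J (cm (ZMod Q) c i p) := by
    intro i p
    apply (hFJB Q J hJ).2.2
    have a1 := coef_le hc i p
    have a2 : (0 : ℤ) ≤ 2 * (J : ℤ) := by positivity
    calc 2 * (J : ℤ) * |c i p| ≤ 2 * (J : ℤ) * A := mul_le_mul_of_nonneg_left a1 a2
      _ = Q := by rw [hQ]; push_cast; ring
  unfold ww
  have h2 : ∏ _i : Fin 2, ∏ _p : Mon s, ((4 : ℝ) / 10) = ((4 : ℝ) / 10) ^ (2 * md s) := by
    rw [Finset.prod_const, Finset.prod_const, Finset.card_univ, Finset.card_univ, ← pow_mul,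
      Fintype.card_fin, mul_comm]
  rw [← h2]
  apply Finset.prod_le_prod
  · intro i _
    apply Finset.prod_nonneg
    intro p _
    norm_num
  · intro i _
    apply Finset.prod_le_prod
    · intro p _
      norm_num
    · intro p _
      exact h1 i p

private theorem lam_nonneg (hFJB : T_FJB) {Q W T : ℕ} [NeZero Q] (hQT : 1 ≤ Q / T)
    (v : ZMod Q) : 0 ≤ lam Q W T v := by
  unfold lam
  split_ifs
  · have := ((hFJB Q (Q / T) hQT).1 v).1
    positivity
  · exact le_rfl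

private theorem lam_ge (hFJB : T_FJB) {Q W T : ℕ} [NeZero Q] (hQT : 1 ≤ Q / T) (hW : W ∣ Q)
    (hT : T ∣ Q) (z : ℤ) (h1 : (W : ℤ) ∣ z) (h2 : 2 * |z| ≤ T) :
    (W : ℝ) / T * (4 / 10) ≤ lam Q W T (z : ZMod Q) := by
  have h3 : W ∣ (z : ZMod Q).val := by
    have e1 : (((z : ZMod Q).val : ℕ) : ℤ) = z % Q := ZMod.val_intCast z
    have e2 : (W : ℤ) ∣ (((z : ZMod Q).val : ℕ) : ℤ) := by
      rw [e1]
      exact (EuclideanDomain.dvd_mod_iff (by exact_mod_cast hW)).2 h1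
    exact_mod_cast e2
  unfold lam
  rw [if_pos h3]
  apply mul_le_mul_of_nonneg_left _ (by positivity)
  apply (hFJB Q (Q / T) hQT).2.2
  have e3 : ((Q / T : ℕ) : ℤ) * (T : ℤ) = Q := by
    exact_mod_cast Nat.div_mul_cancel hT
  calc 2 * ((Q / T : ℕ) : ℤ) * |z| = ((Q / T : ℕ) : ℤ) * (2 * |z|) := by ring
    _ ≤ ((Q / T : ℕ) : ℤ) * T := mul_le_mul_of_nonneg_left h2 (Nat.cast_nonneg _)
    _ = Q := e3

theorem pf_TRF (hFJB : T_FJB) : T_TRF := by
  classical
  intro s A B J Q W T _ S E M₀ hA hJ hQ hW hWQ hTQ hWT h2A hB hS hE hM0 hmain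
  have hQpos : 0 < Q := Nat.pos_of_ne_zero (NeZero.ne Q)
  have hTpos : 0 < T := Nat.pos_of_dvd_of_pos hTQ hQpos
  have hQT : 1 ≤ Q / T := Nat.div_pos (Nat.le_of_dvd hQpos hTQ) hTpos
  have hnn : ∀ F : Fin 2 → Mon s → ZMod Q,
      0 ≤ ww Q J F * (nn Q S F - nl Q W T S F) ^ 2 := by
    intro F
    apply mul_nonneg _ (sq_nonneg _)
    unfold ww
    apply Finset.prod_nonneg
    intro i _
    apply Finset.prod_nonneg
    intro p _
    exact ((hFJB Q J hJ).1 _).1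
  have hterm : ∀ c ∈ E, ((4 : ℝ) / 10) ^ (2 * md s) * (((W : ℝ) / T) ^ 2 * (4 / 10) ^ 2 * M₀) ^ 2 ≤
      ww Q J (cm (ZMod Q) c) * (nn Q S (cm (ZMod Q) c) - nl Q W T S (cm (ZMod Q) c)) ^ 2 := by
    intro c hc
    have hcb : c ∈ bx s A := hE hc
    obtain ⟨m1, m2⟩ := hmain c hc
    have hww := ww_ge hFJB hJ hQ c hcb
    have hn0 : nn Q S (cm (ZMod Q) c) = 0 := by
      unfold nn
      apply Finset.sum_eq_zero
      intro x hx
      rw [if_neg]
      intro hcon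
      obtain ⟨i, hi⟩ := m1 x hx
      apply hi
      have e1 := hcon i
      rw [qf_cast] at e1
      have e2 : (Q : ℤ) ∣ qf (c i) x := (ZMod.intCast_zmod_eq_zero_iff_dvd _ Q).1 e1
      apply Int.eq_zero_of_abs_lt_dvd e2
      have e3 := qf_abs_le c x hcb (hS hx) i
      have e4 : ((md s * A * B ^ 2 : ℕ) : ℤ) < Q := by
        have : md s * A * B ^ 2 < Q := by
          have h5 : 2 * md s * A * B ^ 2 = 2 * (md s * A * B ^ 2) := by ring
          omega
        exact_mod_cast this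
      linarith
    have hl : ((W : ℝ) / T) ^ 2 * (4 / 10) ^ 2 * M₀ ≤ nl Q W T S (cm (ZMod Q) c) := by
      unfold nl
      have hnn2 : ∀ x ∈ S, 0 ≤ ∏ i, lam Q W T (qf (cm (ZMod Q) c i) (fun j => (x j : ZMod Q))) :=
        fun x _ => Finset.prod_nonneg fun i _ => lam_nonneg hFJB hQT _
      calc ((W : ℝ) / T) ^ 2 * (4 / 10) ^ 2 * M₀ ≤ ((W : ℝ) / T) ^ 2 * (4 / 10) ^ 2 *
            ((S.filter fun x => ∀ i, (W : ℤ) ∣ qf (c i) x ∧ 2 * |qf (c i) x| ≤ T).card : ℝ) :=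
            mul_le_mul_of_nonneg_left m2 (by positivity)
        _ = ∑ x ∈ S.filter fun x => ∀ i, (W : ℤ) ∣ qf (c i) x ∧ 2 * |qf (c i) x| ≤ T,
            ∏ _i : Fin 2, ((W : ℝ) / T * (4 / 10)) := by
            rw [Finset.sum_const, nsmul_eq_mul, Finset.prod_const, Finset.card_univ,
              Fintype.card_fin]
            ring
        _ ≤ ∑ x ∈ S.filter fun x => ∀ i, (W : ℤ) ∣ qf (c i) x ∧ 2 * |qf (c i) x| ≤ T,
            ∏ i, lam Q W T (qf (cm (ZMod Q) c i) (fun j => (x j : ZMod Q))) := by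
            apply Finset.sum_le_sum
            intro x hx
            rw [Finset.mem_filter] at hx
            apply Finset.prod_le_prod
            · intro i _
              positivity
            · intro i _
              rw [qf_cast]
              exact lam_ge hFJB hQT hWQ hTQ _ (hx.2 i).1 (hx.2 i).2
        _ ≤ _ := Finset.sum_le_sum_of_subset_of_nonneg (Finset.filter_subset _ _)
            (fun x hx _ => hnn2 x hx)
    have hl0 : 0 ≤ ((W : ℝ) / T) ^ 2 * (4 / 10) ^ 2 * M₀ := by positivity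
    rw [hn0, zero_sub, neg_sq]
    apply mul_le_mul hww (pow_le_pow_left₀ hl0 hl 2) (sq_nonneg _)
    exact le_trans (by positivity) hww
  calc (E.card : ℝ) * ((4 / 10) ^ (2 * md s) * (((W : ℝ) / T) ^ 2 * (4 / 10) ^ 2 * M₀) ^ 2) =
      ∑ _c ∈ E, ((4 : ℝ) / 10) ^ (2 * md s) * (((W : ℝ) / T) ^ 2 * (4 / 10) ^ 2 * M₀) ^ 2 := by
        rw [Finset.sum_const, nsmul_eq_mul]
    _ ≤ ∑ c ∈ E, ww Q J (cm (ZMod Q) c) *
        (nn Q S (cm (ZMod Q) c) - nl Q W T S (cm (ZMod Q) c)) ^ 2 := Finset.sum_le_sum hterm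
    _ = ∑ F ∈ E.image (cm (ZMod Q)), ww Q J F * (nn Q S F - nl Q W T S F) ^ 2 := by
        rw [Finset.sum_image]
        intro c hc c' hc' he
        exact cm_inj h2A c c' (hE hc) (hE hc') he
    _ ≤ _ := Finset.sum_le_sum_of_subset_of_nonneg (Finset.subset_univ _) (fun F _ _ => hnn F)

end Pool.Agent.H26.RQ
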